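import Pool.Agent.V5helper41.PD.Stm

/-! Project PD, job PRI. -/

set_option autoImplicit false

namespace V5helper70.PD

open IntermediateField Polynomial
open Pool.Agent.H58P (Qb)
open Pool.Agent.W237.RK
open V5helper41.PD

lemma pow_iter (s : Aut) (j : ℕ) (x : Qb) : (s ^ j) x = s^[j] x := by
  induction j with
  | zero => rfl
  | succ j ih =>
    rw [pow_succ', Function.iterate_succ_apply', ← ih]
    rfl

lemma pow_add_apply (s : Aut) (i j : ℕ) (x : Qb) : (s ^ (i + j)) x = (s ^ i) ((s ^ j) x) := by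
  rw [pow_add]
  rfl

lemma mem_Kmu {y : Qb} {n : ℕ} (hn : 0 < n) (hy : y ^ n = 1) : y ∈ Kmu :=
  subset_adjoin ℚ _ ⟨n, hn, hy⟩

lemma stable_Kmu : Stable Kmu := by
  intro σ
  have h : Kmu ≤ Kmu.comap (σ : Qb →ₐ[ℚ] Qb) := by
    have h1 : adjoin ℚ {y : Qb | ∃ n : ℕ, 0 < n ∧ y ^ n = 1} ≤ Kmu.comap (σ : Qb →ₐ[ℚ] Qb) := by
      rw [adjoin_le_iff]
      rintro y ⟨n, hn, hy⟩
      show σ y ∈ Kmu
      exact mem_Kmu hn (by rw [← map_pow, hy, map_one])
    exact h1
  exact fun x hx => h hx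

lemma stable_Kx (a n : ℕ) (θ : Qb) (ha : 2 ≤ a) (hn : 0 < n) (hθ : θ ^ n = (a : Qb)) : Stable (Kx θ) := by
  intro σ
  have ha0 : (a : Qb) ≠ 0 := by
    have : a ≠ 0 := by omega
    exact_mod_cast this
  have hθ0 : θ ≠ 0 := by
    rintro rfl
    rw [zero_pow hn.ne'] at hθ
    exact ha0 hθ.symm
  have h : Kx θ ≤ (Kx θ).comap (σ : Qb →ₐ[ℚ] Qb) := by
    have h1 : Kmu ⊔ ℚ⟮θ⟯ ≤ (Kx θ).comap (σ : Qb →ₐ[ℚ] Qb) := by
      refine sup_le ?_ ?_
      · intro x hx
        show σ x ∈ Kmu ⊔ ℚ⟮θ⟯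
        exact (le_sup_left : Kmu ≤ Kmu ⊔ ℚ⟮θ⟯) (stable_Kmu σ x hx)
      · rw [adjoin_simple_le_iff]
        show σ θ ∈ Kmu ⊔ ℚ⟮θ⟯
        have h2 : σ θ = (σ θ / θ) * θ := by field_simp
        rw [h2]
        refine mul_mem ((le_sup_left : Kmu ≤ Kmu ⊔ ℚ⟮θ⟯) (mem_Kmu hn ?_))
          ((le_sup_right : ℚ⟮θ⟯ ≤ Kmu ⊔ ℚ⟮θ⟯) (mem_adjoin_simple_self ℚ θ))
        rw [div_pow, ← map_pow, hθ, map_natCast, div_self ha0]
    exact h1
  exact fun x hx => h hx

/-- conjugation -/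
lemma key (a n : ℕ) (θ : Qb) (ha : 2 ≤ a) (hn : 0 < n) (hθ : θ ^ n = (a : Qb)) (s₀ : Aut) (h0 : Fix Kmu s₀)
    (hall : ∀ s : Aut, Fix Kmu s → ∃ j : ℕ, ∀ x ∈ Kx θ, s x = (s₀ ^ j) x) (g : Aut) :
    ∃ u : ℕ, ∀ m : ℕ, ∀ x ∈ Kx θ, g ((s₀ ^ m) x) = (s₀ ^ (u * m)) (g x) := by
  have hc : Fix Kmu (g * s₀ * g⁻¹) := by
    intro x hx
    show g (s₀ (g⁻¹ x)) = x
    rw [h0 _ (stable_Kmu g⁻¹ x hx)]
    exact g.apply_symm_apply x
  obtain ⟨u, hu⟩ := hall _ hc
  refine ⟨u, fun m x hx => ?_⟩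
  have hst := stable_Kx a n θ ha hn hθ
  have h1 : ∀ m : ℕ, ∀ y ∈ Kx θ, ((g * s₀ * g⁻¹) ^ m) y = (s₀ ^ (u * m)) y := by
    intro m
    induction m with
    | zero => intro y _; rfl
    | succ m ih =>
      intro y hy
      rw [pow_succ']
      show (g * s₀ * g⁻¹) (((g * s₀ * g⁻¹) ^ m) y) = _
      rw [ih y hy, hu _ (hst _ _ hy), ← pow_add_apply]
      congr 2
      ring
  have h2 : ((g * s₀ * g⁻¹) ^ m) (g x) = g ((s₀ ^ m) x) := by
    rw [conj_pow]
    show g ((s₀ ^ m) (g⁻¹ (g x))) = _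
    congr 2
    exact g.symm_apply_apply x
  rw [← h2]
  exact h1 m _ (hst g x hx)

/-- a product over a set which is permuted by `g` -/
lemma prod_map (S : Finset Qb) (g : Aut) (h : ∀ y ∈ S, g y ∈ S) :
    (∏ y ∈ S, (X - C y)).map (g : Qb →+* Qb) = ∏ y ∈ S, (X - C y) := by
  classical
  rw [Polynomial.map_prod]
  simp only [Polynomial.map_sub, Polynomial.map_X, Polynomial.map_C]
  have h1 : S.image g = S := by
    apply Finset.eq_of_subset_of_card_le
    · intro y hy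
      obtain ⟨z, hz, rfl⟩ := Finset.mem_image.1 hy
      exact h z hz
    · rw [Finset.card_image_of_injective _ g.injective]
  conv_rhs => rw [← h1]
  rw [Finset.prod_image (fun x _ y _ hxy => g.injective hxy)]
  rfl

instance isAlgQb : Algebra.IsAlgebraic ℚ Qb := ⟨fun y => (Pool.Agent.H58P.qb_isIntegral y).isAlgebraic⟩

instance isACQb : IsAlgClosure ℚ Qb := ⟨inferInstance, isAlgQb⟩

lemma exists_conj (α β : Qb) (h : aeval β (minpoly ℚ α) = 0) : ∃ g : Aut, g α = β := by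
  have hnormal : Normal ℚ Qb := IsAlgClosure.normal ℚ Qb
  obtain ⟨σ, hσ⟩ := minpoly.exists_algEquiv_of_root' (K := ℚ) (L := Qb) (x := β) (y := α)
    (Algebra.IsAlgebraic.isAlgebraic α) h
  exact ⟨σ, hσ⟩

theorem t_PRI (h1 : S_GAL) (h2 : S_NOR) : S_PRI := by
  classical
  intro a n θ ha hn hθ s₀ h0 hall α hP hα hαK
  have hconj : ∀ g : Aut, ∃ j : ℕ, g α = (s₀ ^ j) α := by
    intro g
    obtain ⟨s, hs, hsα⟩ := (h2 Kmu α stable_Kmu hP hαK).2 g
    obtain ⟨j, hj⟩ := hall s hs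
    exact ⟨j, by rw [← hsα, hj α hα]⟩
  have hint : IsIntegral ℚ α := (Algebra.IsAlgebraic.isAlgebraic α).isIntegral
  have hne0 : minpoly ℚ α ≠ 0 := minpoly.ne_zero hint
  have hroot : ∀ g : Aut, g α ∈ (minpoly ℚ α).rootSet Qb := by
    intro g
    rw [mem_rootSet_of_ne hne0]
    have h3 : aeval (g α) (minpoly ℚ α) = g (aeval α (minpoly ℚ α)) :=
      (aeval_algHom_apply (g : Qb →ₐ[ℚ] Qb) α (minpoly ℚ α))
    rw [h3, minpoly.aeval, map_zero]
  have hfin : ((minpoly ℚ α).rootSet Qb).Finite := rootSet_finite _ _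
  -- the period
  obtain ⟨d, hd⟩ : ∃ d, d = Function.minimalPeriod s₀ α := ⟨_, rfl⟩
  have hdvd : ∀ j : ℕ, (s₀ ^ j) α = α ↔ d ∣ j := by
    intro j
    rw [hd, ← Function.isPeriodicPt_iff_minimalPeriod_dvd, pow_iter]
    rfl
  have hdpos : 0 < d := by
    have h3 : ∃ i j : ℕ, i < j ∧ (s₀ ^ i) α = (s₀ ^ j) α := by
      have := hfin.to_subtype
      obtain ⟨i, j, hij, he⟩ := Finite.exists_ne_map_eq_of_infinite
        (fun i : ℕ => (⟨(s₀ ^ i) α, hroot (s₀ ^ i)⟩ : (minpoly ℚ α).rootSet Qb))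
      have he' : (s₀ ^ i) α = (s₀ ^ j) α := congrArg Subtype.val he
      rcases lt_or_gt_of_ne hij with h | h
      · exact ⟨i, j, h, he'⟩
      · exact ⟨j, i, h, he'.symm⟩
    obtain ⟨i, j, hij, he⟩ := h3
    have h4 : (s₀ ^ (j - i)) α = α := by
      have h5 : j = i + (j - i) := by omega
      rw [h5, pow_add_apply] at he
      exact ((s₀ ^ i).injective he).symm
    have h6 := (hdvd _).1 h4
    exact Nat.pos_of_dvd_of_pos h6 (by omega)
  have heq : ∀ i j : ℕ, i ≤ j → (s₀ ^ i) α = (s₀ ^ j) α → d ∣ j - i := by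
    intro i j hij he
    rw [← hdvd]
    have h5 : j = i + (j - i) := by omega
    rw [h5, pow_add_apply] at he
    exact ((s₀ ^ i).injective he).symm
  have hd1 : d ≠ 1 := by
    intro hd1
    apply hαK
    apply h1
    intro σ hσ
    obtain ⟨j, hj⟩ := hall σ hσ
    rw [hj α hα, hdvd, hd1]
    exact one_dvd j
  obtain ⟨q, hq, hqd⟩ := Nat.exists_prime_and_dvd hd1
  -- the set
  let T : Set Qb := {y | ∃ i : ℕ, y = (s₀ ^ (q * i)) α}
  have hTfin : T.Finite := hfin.subset (by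
    rintro y ⟨i, rfl⟩
    exact hroot _)
  let S : Finset Qb := hTfin.toFinset
  have hS : ∀ y, y ∈ S ↔ ∃ i : ℕ, y = (s₀ ^ (q * i)) α := by
    intro y
    rw [Set.Finite.mem_toFinset]
    rfl
  have hperm : ∀ (g : Aut) (k : ℕ), g α = (s₀ ^ (q * k)) α → ∀ y ∈ S, g y ∈ S := by
    intro g k hg y hy
    obtain ⟨i, rfl⟩ := (hS y).1 hy
    obtain ⟨u, hu⟩ := key a n θ ha hn hθ s₀ h0 hall g
    rw [hS]
    refine ⟨u * i + k, ?_⟩
    rw [hu _ α hα, hg, ← pow_add_apply]
    congr 2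
    ring
  obtain ⟨f, hf⟩ : ∃ f : Qb[X], f = ∏ y ∈ S, (X - C y) := ⟨_, rfl⟩
  have hfg : ∀ (g : Aut) (k : ℕ), g α = (s₀ ^ (q * k)) α → f.map (g : Qb →+* Qb) = f := by
    intro g k hg
    rw [hf]
    exact prod_map S g (hperm g k hg)
  have hcoef : ∀ (g : Aut) (k : ℕ), g α = (s₀ ^ (q * k)) α → ∀ i, g (f.coeff i) = f.coeff i := by
    intro g k hg i
    have h3 := congrArg (fun P : Qb[X] => P.coeff i) (hfg g k hg)
    simp only [coeff_map] at h3
    exact h3
  have hL : ∀ i, f.coeff i ∈ ℚ⟮α⟯ := by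
    intro i
    apply h1
    intro σ hσ
    refine hcoef σ 0 ?_ i
    rw [hσ α (mem_adjoin_simple_self ℚ α)]
    rfl
  have hLle : adjoin ℚ (Set.range f.coeff) ≤ ℚ⟮α⟯ := by
    rw [adjoin_le_iff]
    rintro y ⟨i, rfl⟩
    exact hL i
  have hdq : d = q := by
    rcases hP _ hLle with h3 | h3
    · exfalso
      have h4 : ∀ i, s₀ (f.coeff i) = f.coeff i := by
        intro i
        have h5 : f.coeff i ∈ (⊥ : IntermediateField ℚ Qb) := by
          rw [← h3]
          exact subset_adjoin ℚ _ ⟨i, rfl⟩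
        obtain ⟨r, hr⟩ := IntermediateField.mem_bot.1 h5
        rw [← hr]
        exact s₀.commutes r
      have h6 : f.map (s₀ : Qb →+* Qb) = f := by
        ext i
        rw [coeff_map]
        exact h4 i
      have h7 : eval α f = 0 := by
        rw [hf, eval_prod]
        apply Finset.prod_eq_zero (i := α)
        · rw [hS]
          exact ⟨0, rfl⟩
        · simp
      have h8 : eval (s₀ α) f = 0 := by
        conv_lhs => rw [← h6]
        have h9 := eval_map_apply (f := (s₀ : Qb →+* Qb)) (p := f) α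
        have h10 : eval ((s₀ : Qb →+* Qb) α) (f.map (s₀ : Qb →+* Qb)) = (s₀ : Qb →+* Qb) (eval α f) := h9
        rw [h7, map_zero] at h10
        exact h10
      rw [hf, eval_prod, Finset.prod_eq_zero_iff] at h8
      obtain ⟨y, hy, hy2⟩ := h8
      rw [eval_sub, eval_X, eval_C, sub_eq_zero] at hy2
      obtain ⟨i, hi⟩ := (hS y).1 hy
      rw [← hy2] at hi
      have h11 : (s₀ ^ 1) α = (s₀ ^ (q * i)) α := by
        rw [pow_one]; exact hi
      rcases Nat.eq_zero_or_pos i with h12 | h12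
      · rw [h12, Nat.mul_zero] at h11
        have h13 := heq 0 1 (by omega) h11.symm
        exact hd1 (Nat.dvd_one.1 h13)
      · have h14 : 1 ≤ q * i := Nat.mul_pos hq.pos h12
        have h15 := hqd.trans (heq 1 (q * i) h14 h11)
        have h16 : q ∣ 1 := (Nat.dvd_sub_iff_right h14 (dvd_mul_right q i)).1 h15
        exact hq.one_lt.ne' (Nat.dvd_one.1 h16)
    · have h4 : (s₀ ^ q) α = α := by
        have h5 : ∀ x ∈ adjoin ℚ (Set.range f.coeff), (s₀ ^ q) x = x := by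
          intro x hx
          induction hx using adjoin_induction with
          | mem x hx =>
            obtain ⟨i, rfl⟩ := hx
            exact hcoef (s₀ ^ q) 1 (by rw [mul_one]) i
          | algebraMap r => exact (s₀ ^ q).commutes r
          | add x y _ _ hx hy => rw [map_add, hx, hy]
          | inv x _ hx => rw [map_inv₀, hx]
          | mul x y _ _ hx hy => rw [map_mul, hx, hy]
        apply h5
        rw [h3]
        exact mem_adjoin_simple_self ℚ α
      exact Nat.dvd_antisymm ((hdvd q).1 h4) hqd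
  refine ⟨q, hq, ?_, fun j => by rw [hdvd, hdq]⟩
  -- the degree
  have hR : ((minpoly ℚ α).rootSet Qb) = ((Finset.range d).image fun i => (s₀ ^ i) α : Finset Qb) := by
    ext y
    rw [Finset.mem_coe, Finset.mem_image]
    constructor
    · intro hy
      rw [mem_rootSet_of_ne hne0] at hy
      obtain ⟨g, hg⟩ := exists_conj α y hy
      obtain ⟨j, hj⟩ := hconj g
      refine ⟨j % d, Finset.mem_range.2 (Nat.mod_lt _ hdpos), ?_⟩
      rw [← hg, hj]
      conv_rhs => rw [← Nat.mod_add_div j d, pow_add_apply, (hdvd (d * (j / d))).2 (dvd_mul_right _ _)]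
    · rintro ⟨i, _, rfl⟩
      exact hroot _
  have hcard : ((Finset.range d).image fun i => (s₀ ^ i) α : Finset Qb).card = d := by
    rw [Finset.card_image_of_injOn, Finset.card_range]
    intro i hi j hj hij
    have hi' : i < d := by simpa using hi
    have hj' : j < d := by simpa using hj
    rcases le_total i j with h | h
    · have h3 := heq i j h hij
      have h4 := Nat.eq_zero_of_dvd_of_lt h3 (by omega)
      omega
    · have h3 := heq j i h hij.symm
      have h4 := Nat.eq_zero_of_dvd_of_lt h3 (by omega)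
      omega
  have hsep : (minpoly ℚ α).Separable := (minpoly.irreducible hint).separable
  have h3 := card_rootSet_eq_natDegree (K := Qb) hsep (IsAlgClosed.splits _)
  rw [← h3, ← Set.toFinset_card]
  have h4 : ((minpoly ℚ α).rootSet Qb).toFinset = (Finset.range d).image fun i => (s₀ ^ i) α := by
    rw [← Finset.coe_inj, Set.coe_toFinset]
    exact hR
  rw [h4, hcard, hdq]

end V5helper70.PD
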